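import Mathlib

set_option autoImplicit false

namespace Pool.Agent.Results.MP_35fdad_lc.RatThree

open Classical

/-- A strict linear order on `Y`; `r.1 x y` reads: `x` is preferred to `y`. -/
def Pref (Y : Type) : Type := {r : Y → Y → Prop // IsStrictTotalOrder Y r}

/-- The possible partners of an agent: the other side together with `none` (unmatched). -/
abbrev Opp {M W : Type} : M ⊕ W → Type
  | .inl _ => Option W
  | .inr _ => Option M

/-- A profile: one strict linear order for each agent. -/
abbrev Profile (M W : Type) : Type := ∀ a : M ⊕ W, Pref (Opp a)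

/-- A matching between `M` and `W`. -/
structure Matching (M W : Type) where
  ofM : M → Option W
  ofW : W → Option M
  iff : ∀ m w, ofM m = some w ↔ ofW w = some m

/-- The partner of an agent in a matching. -/
def Matching.partner {M W : Type} (μ : Matching M W) : (a : M ⊕ W) → Opp a
  | .inl m => μ.ofM m
  | .inr w => μ.ofW w

/-- Stability: nobody ranks being unmatched above its partner, and there is no blocking pair. -/
def Stable {M W : Type} (P : Profile M W) (μ : Matching M W) : Prop :=
  (∀ m, ¬ (P (.inl m)).1 none (μ.ofM m)) ∧ (∀ w, ¬ (P (.inr w)).1 none (μ.ofW w)) ∧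
    ∀ m w, ¬ ((P (.inl m)).1 (some w) (μ.ofM m) ∧ (P (.inr w)).1 (some m) (μ.ofW w))

/-- `F` is `k`-known-agents safely manipulable: `P` carries the true order of agent `i` and the
fixed reports of the `k` known agents `K`; the profiles `Q` agreeing with `P` on `i` and on `K`
range over all reports of the remaining agents; `r` is a safe and profitable false report. -/
def Manipulable {M W : Type} (F : Profile M W → Matching M W) (k : ℕ) : Prop :=
  ∃ (i : M ⊕ W) (K : Finset (M ⊕ W)) (P : Profile M W) (r : Pref (Opp i)),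
    K.card = k ∧ i ∉ K ∧ r ≠ P i ∧
    (∀ Q : Profile M W, Q i = P i → (∀ a ∈ K, Q a = P a) →
      (F (Function.update Q i r)).partner i = (F Q).partner i ∨
        (P i).1 ((F (Function.update Q i r)).partner i) ((F Q).partner i)) ∧
    (∃ Q : Profile M W, Q i = P i ∧ (∀ a ∈ K, Q a = P a) ∧
      (P i).1 ((F (Function.update Q i r)).partner i) ((F Q).partner i))

/-- The RAT-degree: the least `k < n` for which `F` is `k`-known-agents safely manipulable, and
`n = |M| + |W|` if there is none. -/
noncomputable def ratDegree {M W : Type} [Fintype M] [Fintype W]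
    (F : Profile M W → Matching M W) : ℕ :=
  sInf ({k | k < Fintype.card M + Fintype.card W ∧ Manipulable F k} ∪
    {Fintype.card M + Fintype.card W})

/-- `a` first, `b` second -/
def Top2 {Y : Type} (r : Pref Y) (a b : Y) : Prop :=
  (∀ y, y ≠ a → r.1 a y) ∧ ∀ y, y ≠ a → y ≠ b → r.1 b y

theorem exists_top2 {Y : Type} (a b : Y) (hab : a ≠ b) : ∃ r : Pref Y, Top2 r a b := by
  obtain ⟨_, -⟩ := exists_wellFoundedLT (α := Y)
  let f : Y → ℕ ×ₗ Y := fun y => toLex (if y = a then 0 else if y = b then 1 else 2, y)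
  have hf : Function.Injective f := fun x y h => congrArg (fun p => (ofLex p).2) h
  refine ⟨⟨fun x y => f x < f y, ?_⟩, ?_, ?_⟩
  · exact { trichotomous := fun x y h1 h2 => hf (le_antisymm (not_lt.mp h2) (not_lt.mp h1))
            irrefl := fun x => lt_irrefl _
            trans := fun x y z => lt_trans }
  · intro y hy
    show f a < f y
    simp only [f, Prod.Lex.toLex_lt_toLex, if_true, if_neg hy]
    left
    split_ifs <;> simp
  · intro y hy hyb
    show f b < f y
    simp only [f, Prod.Lex.toLex_lt_toLex, if_true, if_neg hy, if_neg hyb, if_neg hab.symm]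
    left
    simp

theorem Pref.asymm {Y : Type} (r : Pref Y) {x y : Y} (h : r.1 x y) : ¬ r.1 y x := by
  have := r.2
  exact fun h' => irrefl_of r.1 x (trans_of r.1 h h')

section gadget

variable {M W : Type} {m1 m2 : M} {w1 w2 : W} (hm : m1 ≠ m2) (hw : w1 ≠ w2)
  {Q : Profile M W} {μ : Matching M W} (hs : Stable Q μ)
include hm hw hs

/-- after the truncation by `w1`, she gets `m2` in every stable matching -/
theorem truncW (h1 : Top2 (Q (.inl m1)) (some w1) (some w2))
    (h2 : Top2 (Q (.inl m2)) (some w2) (some w1))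
    (h3 : Top2 (Q (.inr w1)) (some m2) none)
    (h4 : Top2 (Q (.inr w2)) (some m1) (some m2)) : μ.ofW w1 = some m2 := by
  obtain ⟨-, sw, sb⟩ := hs
  by_contra hne
  have e1 : μ.ofW w1 = none := by
    by_contra h
    exact sw w1 (h3.2 _ hne h)
  have e2 : μ.ofM m2 = some w2 := by
    by_contra h
    refine sb m2 w1 ⟨h2.2 _ h (fun h' => hne ((μ.iff _ _).mp h')), h3.1 _ hne⟩
  have e3 : μ.ofW w2 = some m2 := (μ.iff _ _).mp e2
  refine sb m1 w2 ⟨h1.2 _ (fun h => ?_) (fun h => ?_), h4.1 _ ?_⟩
  · rw [(μ.iff _ _).mp h] at e1; cases e1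
  · rw [(μ.iff _ _).mp h] at e3; exact hm (Option.some.inj e3)
  · rw [e3]; exact fun h => hm (Option.some.inj h).symm

/-- after the truncation by `m1`, he gets `w1` in every stable matching -/
theorem truncM (h1 : Top2 (Q (.inl m1)) (some w1) none)
    (h2 : Top2 (Q (.inl m2)) (some w2) (some w1))
    (h3 : Top2 (Q (.inr w1)) (some m2) (some m1))
    (h4 : Top2 (Q (.inr w2)) (some m1) (some m2)) : μ.ofM m1 = some w1 := by
  obtain ⟨sm, -, sb⟩ := hs
  by_contra hne
  have e1 : μ.ofM m1 = none := by
    by_contra h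
    exact sm m1 (h1.2 _ hne h)
  have e2 : μ.ofW w1 = some m2 := by
    by_contra h
    refine sb m1 w1 ⟨h1.1 _ hne, h3.2 _ h (fun h' => hne ((μ.iff _ _).mpr h'))⟩
  have e3 : μ.ofM m2 = some w1 := (μ.iff _ _).mpr e2
  refine sb m2 w2 ⟨h2.1 _ ?_, h4.2 _ (fun h => ?_) (fun h => ?_)⟩
  · rw [e3]; exact fun h => hw (Option.some.inj h)
  · rw [(μ.iff _ _).mpr h] at e1; cases e1
  · rw [(μ.iff _ _).mpr h] at e3; exact hw (Option.some.inj e3).symm

omit hw in
theorem not_both (h2 : Top2 (Q (.inl m2)) (some w2) (some w1)) :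
    μ.ofM m1 ≠ some w1 ∨ μ.ofW w1 ≠ some m2 := by
  by_contra h
  push Not at h
  rw [(μ.iff _ _).mp h.1] at h
  exact hm (Option.some.inj h.2)

end gadget

theorem manip3 {M W : Type} {m1 m2 : M} {w1 w2 : W} (hm : m1 ≠ m2) (hw : w1 ≠ w2)
    (F : Profile M W → Matching M W) (hF : ∀ P, Stable P (F P)) : Manipulable F 3 := by
  have hm' : (some m1 : Option M) ≠ some m2 := fun h => hm (Option.some.inj h)
  have hw' : (some w1 : Option W) ≠ some w2 := fun h => hw (Option.some.inj h)
  obtain ⟨p1, hp1⟩ := exists_top2 (some w1) (some w2) hw'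
  obtain ⟨p2, hp2⟩ := exists_top2 (some w2) (some w1) hw'.symm
  obtain ⟨p3, hp3⟩ := exists_top2 (some m2) (some m1) hm'.symm
  obtain ⟨p4, hp4⟩ := exists_top2 (some m1) (some m2) hm'
  obtain ⟨t1, ht1⟩ := exists_top2 (some w1) none (by simp)
  obtain ⟨t3, ht3⟩ := exists_top2 (some m2) none (by simp)
  let P : Profile M W := fun a => match a with
    | .inl m => if m = m1 then p1 else p2
    | .inr w => if w = w1 then p3 else p4
  have P1 : P (.inl m1) = p1 := if_pos rfl
  have P2 : P (.inl m2) = p2 := if_neg hm.symm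
  have P3 : P (.inr w1) = p3 := if_pos rfl
  have P4 : P (.inr w2) = p4 := if_neg hw.symm
  rcases not_both hm (hF P) (w2 := w2) (w1 := w1) (by rw [P2]; exact hp2) with h | h
  · have key : ∀ Q : Profile M W,
        (∀ a ∈ ({.inl m2, .inr w1, .inr w2} : Finset (M ⊕ W)), Q a = P a) →
        (F (Function.update Q (.inl m1) t1)).ofM m1 = some w1 := by
      intro Q hQ
      refine truncM (m2 := m2) (w2 := w2) hm hw (hF _) ?_ ?_ ?_ ?_
      · rw [Function.update_self]; exact ht1
      · rw [Function.update_of_ne (by simp [hm.symm]), hQ _ (by simp), P2]; exact hp2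
      · rw [Function.update_of_ne (by simp), hQ _ (by simp), P3]; exact hp3
      · rw [Function.update_of_ne (by simp), hQ _ (by simp), P4]; exact hp4
    refine ⟨.inl m1, {.inl m2, .inr w1, .inr w2}, P, t1, ?_, by simp [hm], ?_, ?_, ?_⟩
    · rw [Finset.card_eq_three]
      exact ⟨_, _, _, by simp, by simp, by simp [hw], rfl⟩
    · rw [P1]
      intro e
      have e' : t1 = p1 := e
      subst e'
      exact t1.asymm (ht1.2 (some w2) hw'.symm (by simp)) (hp1.2 none (by simp) (by simp))
    · intro Q _ hQ
      have := key Q hQ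
      simp only [Matching.partner, this, P1]
      by_cases e : (F Q).ofM m1 = some w1
      · exact Or.inl e.symm
      · exact Or.inr (hp1.1 _ e)
    · refine ⟨P, rfl, fun _ _ => rfl, ?_⟩
      have := key P (fun _ _ => rfl)
      simp only [Matching.partner, this, P1]
      exact hp1.1 _ h
  · have key : ∀ Q : Profile M W,
        (∀ a ∈ ({.inl m1, .inl m2, .inr w2} : Finset (M ⊕ W)), Q a = P a) →
        (F (Function.update Q (.inr w1) t3)).ofW w1 = some m2 := by
      intro Q hQ
      refine truncW (m1 := m1) (w2 := w2) hm hw (hF _) ?_ ?_ ?_ ?_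
      · rw [Function.update_of_ne (by simp), hQ _ (by simp), P1]; exact hp1
      · rw [Function.update_of_ne (by simp), hQ _ (by simp), P2]; exact hp2
      · rw [Function.update_self]; exact ht3
      · rw [Function.update_of_ne (by simp [hw.symm]), hQ _ (by simp), P4]; exact hp4
    refine ⟨.inr w1, {.inl m1, .inl m2, .inr w2}, P, t3, ?_, by simp [hw], ?_, ?_, ?_⟩
    · rw [Finset.card_eq_three]
      exact ⟨_, _, _, by simp [hm], by simp, by simp, rfl⟩
    · rw [P3]
      intro e
      have e' : t3 = p3 := e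
      subst e'
      exact t3.asymm (ht3.2 (some m1) hm' (by simp)) (hp3.2 none (by simp) (by simp))
    · intro Q _ hQ
      have := key Q hQ
      simp only [Matching.partner, this, P3]
      by_cases e : (F Q).ofW w1 = some m2
      · exact Or.inl e.symm
      · exact Or.inr (hp3.1 _ e)
    · refine ⟨P, rfl, fun _ _ => rfl, ?_⟩
      have := key P (fun _ _ => rfl)
      simp only [Matching.partner, this, P3]
      exact hp3.1 _ h

/-- Every stable matching mechanism with at least two agents on each side has RAT-degree at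
most three. -/
theorem result (M W : Type) [Fintype M] [Fintype W] (hM : 2 ≤ Fintype.card M)
    (hW : 2 ≤ Fintype.card W) (F : Profile M W → Matching M W) (hF : ∀ P, Stable P (F P)) :
    ratDegree F ≤ 3 := by
  obtain ⟨m1, m2, hm⟩ := Fintype.exists_pair_of_one_lt_card (α := M) hM
  obtain ⟨w1, w2, hw⟩ := Fintype.exists_pair_of_one_lt_card (α := W) hW
  exact Nat.sInf_le (Or.inl ⟨by omega, manip3 hm hw F hF⟩)

end Pool.Agent.Results.MP_35fdad_lc.RatThree
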